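import Pool.Agent.R115.Mm.Main

/-!
# The matroid matching property fails for generic rigidity matroids in odd dimensions

For every `k ≥ 2` and every `n ≥ 6 k + 12` the generic `(2k+1)`-dimensional rigidity matroid of
`K_n` does not have the matroid matching property.
-/

set_option autoImplicit false

namespace Pool.Agent.Results.MP_cb6704_co.OddMatching

open Pool.Agent.R115.Mm

/-- For every `k ≥ 2`, every `n ≥ 6 k + 12` and every generic placement `p` of `n` points in
dimension `2 k + 1`, the rigidity matroid of the complete graph at `p` does not have the matroid
matching property. -/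
theorem result (k : ℕ) (hk : 2 ≤ k) (n : ℕ) (hn : 6 * k + 12 ≤ n)
    (p : Fin n → Fin (2 * k + 1) → ℝ) (hp : Generic p) : ¬ MatchingProperty (rigRank p) := by
  obtain ⟨ι⟩ : Nonempty (Idx k ↪ Fin n) := by
    apply Function.Embedding.nonempty_of_card_le
    simp only [Fintype.card_sum, Fintype.card_prod, Fintype.card_fin, Fintype.card_bool]
    omega
  exact main ι hk hp

end Pool.Agent.Results.MP_cb6704_co.OddMatching
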